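import Pool.Agent.H541.T1.Dbl

set_option autoImplicit false

/-!
# The amplitude model of the generalised Wagstaff numbers: all bases at once

`N b β n` is the integer part of `(β b ^ n + 1) / (b + 1)`; for `β = 1` and odd `n` it is the number
`Q(b, n)` of the problem.  One real number `β` perturbs the numbers for all bases simultaneously.
-/

namespace Pool.Agent.Results.MP_ce8d0c_nt.PrimeFreeNeighbourhoods

open Filter Topology
open Pool.Agent.H541.T1

/-- the numbers of the problem for `β = 1` and odd `n` -/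
noncomputable def N (b : ℕ) (β : ℝ) (n : ℕ) : ℤ := ⌊(β * (b : ℝ) ^ n + 1) / ((b : ℝ) + 1)⌋

lemma N_eq (b : ℕ) (β : ℝ) (n : ℕ) :
    N b β n = ⌊β * ((b : ℝ) ^ n / ((b : ℝ) + 1)) + 1 / ((b : ℝ) + 1)⌋ := by
  unfold N
  congr 1
  ring

lemma N_one (b n : ℕ) (hb : 2 ≤ b) (hn : Odd n) : N b 1 n * ((b : ℤ) + 1) = (b : ℤ) ^ n + 1 := by
  have h1 : (b : ℤ) + 1 ∣ (b : ℤ) ^ n + 1 := by
    have := Odd.add_dvd_pow_add_pow (b : ℤ) 1 hn
    simpa using this
  obtain ⟨w, hw⟩ := h1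
  have hb0 : (0 : ℝ) < (b : ℝ) + 1 := by positivity
  have h2 : (1 * (b : ℝ) ^ n + 1) / ((b : ℝ) + 1) = ((w : ℤ) : ℝ) := by
    rw [div_eq_iff hb0.ne']
    have h3 : ((b : ℝ) ^ n + 1) = ((b : ℝ) + 1) * w := by exact_mod_cast hw
    rw [one_mul, h3]
    ring
  unfold N
  rw [h2, Int.floor_intCast, hw]
  ring

lemma dbl (b : ℕ) (hb : 2 ≤ b) (n : ℕ) :
    2 * ((b : ℝ) ^ n / ((b : ℝ) + 1)) ≤ (b : ℝ) ^ (n + 1) / ((b : ℝ) + 1) := by
  have hbr : (2 : ℝ) ≤ b := by exact_mod_cast hb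
  rw [pow_succ, mul_div_assoc']
  have h1 : 0 < (b : ℝ) ^ n := by positivity
  apply div_le_div_of_nonneg_right _ (by positivity)
  nlinarith

lemma pos (b : ℕ) (hb : 2 ≤ b) (n : ℕ) : 0 < (b : ℝ) ^ n / ((b : ℝ) + 1) := by
  have hbr : (2 : ℝ) ≤ b := by exact_mod_cast hb
  positivity

/-- **Main theorem.** The numbers `N b β n` are the generalised Wagstaff numbers for `β = 1` and odd
`n`.  (1) In every interval of positive `β` the set of the `β` such that, for all bases `b ≥ 2` at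
once and all large `n`, all integers at distance at most `η b * log n` from `N b β n` are composite,
with a prime factor at most `exp (n ^ ε)`, has full Hausdorff dimension. (2) The same holds for the `β` such that for all bases `b`, all shifts
`h` and all bounds `W` the number `N b β n + h` has for all large `n` a prime factor between `W` and
`z b n`, where the `z b n` tend to infinity arbitrarily slowly. (3) With a bound `Z` independent of
`n` the dimension is smaller than one, for each base, even for odd `n` only. -/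
theorem result :
    (∀ b n : ℕ, 2 ≤ b → Odd n → N b 1 n * ((b : ℤ) + 1) = (b : ℤ) ^ n + 1) ∧
    (∀ ε : ℝ, 0 < ε → ∃ η : ℕ → ℝ, (∀ b, 2 ≤ b → 0 < η b) ∧ ∀ u v : ℝ, 0 ≤ u → u < v →
      dimH {β : ℝ | β ∈ Set.Ioo u v ∧ ∀ b : ℕ, 2 ≤ b → ∀ᶠ n : ℕ in atTop, ∀ a : ℤ,
        |(a : ℝ) - N b β n| ≤ η b * Real.log n →
        ∃ p : ℕ, p.Prime ∧ (p : ℝ) ≤ Real.exp ((n : ℝ) ^ ε) ∧ (p : ℤ) ∣ a ∧ (p : ℤ) < a} = 1) ∧
    (∀ z : ℕ → ℕ → ℝ, (∀ b, 2 ≤ b → Tendsto (z b) atTop atTop) → ∀ u v : ℝ, u < v →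
      dimH {β : ℝ | β ∈ Set.Ioo u v ∧ ∀ b : ℕ, 2 ≤ b → ∀ (h : ℤ) (W : ℕ), ∀ᶠ n : ℕ in atTop,
        ∃ p : ℕ, p.Prime ∧ W < p ∧ (p : ℝ) ≤ z b n ∧ (p : ℤ) ∣ N b β n + h} = 1) ∧
    (∀ b : ℕ, 2 ≤ b → ∀ Z : ℕ,
      dimH {β : ℝ | ∀ᶠ m : ℕ in atTop, ∃ p : ℕ, p.Prime ∧ p ≤ Z ∧ (p : ℤ) ∣ N b β (2 * m + 1)} < 1) := by
  refine ⟨N_one, ?_, ?_, ?_⟩
  · intro ε hε
    obtain ⟨η, hη0, hη⟩ := dim_comp (J := {b : ℕ // 2 ≤ b}) ε hε
      (fun b n => (b.1 : ℝ) ^ n / ((b.1 : ℝ) + 1)) (fun b => dbl_sparse _ (dbl b.1 b.2) (pos b.1 b.2))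
      (fun b => dbl_tendsto _ (dbl b.1 b.2) (pos b.1 b.2))
      (fun b => dbl_grow _ (dbl b.1 b.2) (pos b.1 b.2))
      (fun b => grow_up _ (pos b.1 b.2) b.1 (fun n => by
        apply le_of_eq
        ring))
    refine ⟨fun b => if hb : 2 ≤ b then η ⟨b, hb⟩ else 0, fun b hb => ?_, fun u v hu huv => ?_⟩
    · simp only [dif_pos hb]
      exact hη0 _
    · have h1 := hη (fun b _ => 1 / ((b.1 : ℝ) + 1)) (by
        intro b
        have h2 := (dbl_tendsto _ (dbl b.1 b.2) (pos b.1 b.2)).const_div_atTop (1 / ((b.1 : ℝ) + 1))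
        exact h2) u v hu huv
      rw [← h1]
      congr 1
      ext β
      constructor
      · rintro ⟨h2, h3⟩
        refine ⟨h2, fun b => ?_⟩
        have h4 := h3 b.1 b.2
        simp only [dif_pos b.2, N_eq] at h4
        exact h4
      · rintro ⟨h2, h3⟩
        refine ⟨h2, fun b hb => ?_⟩
        have h4 := h3 ⟨b, hb⟩
        simp only [dif_pos hb, N_eq]
        exact h4
  · intro z hz u v huv
    have h1 := dim_fam (J := {b : ℕ // 2 ≤ b} × ℤ)
      (fun j n => (j.1.1 : ℝ) ^ n / ((j.1.1 : ℝ) + 1)) (fun j _ => 1 / ((j.1.1 : ℝ) + 1))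
      (fun j => z j.1.1) (fun j _ _ => -j.2) (fun j => dbl_sparse _ (dbl j.1.1 j.1.2) (pos j.1.1 j.1.2))
      (fun j => dbl_tendsto _ (dbl j.1.1 j.1.2) (pos j.1.1 j.1.2)) (fun j => hz j.1.1 j.1.2) u v huv
    rw [← h1]
    congr 1
    ext β
    constructor
    · rintro ⟨h2, h3⟩
      refine ⟨h2, fun j W => ?_⟩
      have h4 := h3 j.1.1 j.1.2 j.2 W
      simp only [N_eq] at h4
      simp only [sub_neg_eq_add]
      exact h4
    · rintro ⟨h2, h3⟩
      refine ⟨h2, fun b hb h W => ?_⟩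
      have h4 := h3 (⟨b, hb⟩, h) W
      simp only [sub_neg_eq_add] at h4
      simp only [N_eq]
      exact h4
  · intro b hb Z
    have hbr : (2 : ℝ) ≤ b := by exact_mod_cast hb
    have h1 := dim_bounded (fun m => (b : ℝ) ^ (2 * m + 1) / ((b : ℝ) + 1)) (fun _ => 1 / ((b : ℝ) + 1))
      (fun m => pos b hb _) ?_ ((b : ℝ) ^ 2) ?_ Z
    · simp only [N_eq]
      exact h1
    · have h2 := dbl_tendsto _ (dbl b hb) (pos b hb)
      have h3 : Tendsto (fun m : ℕ => 2 * m + 1) atTop atTop :=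
        tendsto_atTop_mono (fun m => by omega : ∀ m : ℕ, m ≤ 2 * m + 1) tendsto_id
      exact h2.comp h3
    · intro m
      apply le_of_eq
      ring

end Pool.Agent.Results.MP_ce8d0c_nt.PrimeFreeNeighbourhoods
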