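import Mathlib
import Pool.Agent.H556.FX.NearSFin

/-!
# Divisors of the generalized Wagstaff numbers `(b ^ p + 1) / (b + 1)`

Let `b` be one of the bases of the problem: `b ≥ 2` is not of the form `m ^ r` with odd `r > 1` and not
of the form `4 k ^ 4`. Let `Q_p = (b ^ p + 1) / (b + 1)` with a large prime `p`. We restrict the position
of all the proper divisors of `Q_p`. Let `S` be a finite set of primes and `ε > 0`.

(1) Real place. Let `α` be a real algebraic number. For all large primes `p` no divisor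
`a = Q_p ^ t`, `ε ≤ t ≤ 1 - ε`, of `Q_p` lies within the distance `Q_p ^ (t ^ 2 - ε)` of a number `α u`,
where `u` is any rational number composed of the primes of `S` (of height at most `Q_p ^ K`), or such a
number times a rational number `c / d` with `|c|, |d| ≤ Q_p ^ η`. For example, in base `b` the leading
digits of `a` and of `α` agree in less than `(t (1 - t) + ε) p` places.

(2) The primes of `S`. If `u`, `v` are coprime integers composed of the primes of `S`, of absolute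
value at most `Q_p ^ K`, and `c`, `d` are nonzero integers of absolute value at most `Q_p ^ η`, then the
part of `c u a + d v` which is composed of primes outside of `S` is greater than
`max (|u| a, |v|) Q_p ^ (-t (1 - t) - ε)`. For example, if `a = 1 + k b ^ n` then
`b ^ n < Q_p ^ (t (1 - t) + ε)`.

The bases which are excluded in the problem are those for which `Q_p` has algebraic factors, e.g.
`(m ^ p + 1) / (m + 1)` for `b = m ^ r`, and (1) is false for this factor.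

Proof. Let `T = b ^ p` (`p` odd), `Q_p = a a'`, `z = a / u`, `z' = (b + 1) a' u / T`, so that
`T z z' = T + 1`. If `T` and `z` satisfy no polynomial relation with fixed coefficients, the subspace
theorem is applied to the products `T ^ ω z ^ i` (`0 ≤ i ≤ B`), `T ^ ω z' ^ l` (`1 ≤ l ≤ A`),
`0 ≤ ω ≤ M`, with the basis of the `T ^ ω z' ^ max (k - B, 0) (z - α) ^ k`, `0 ≤ k ≤ A + B`, at the places
where `z` is close to `α`; `A`, `B` are about `t c`, `(1 - t) c` for a large number `c`. If there is a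
relation then `z` has a Puiseux expansion in `T`, the subspace theorem shows that a bounded multiple of
`a` is a short sum of `S`-units, and this is impossible: here the condition on `b` is used
(`Pool.Agent.H556.FX.main`, with the irreducibility theorem of Vahlen and Capelli).
-/

set_option autoImplicit false

namespace Pool.Agent.Results.MP_ce8d0c_nt.WagstaffDivisors

/-- the generalized Wagstaff number `Q(b, n)` of the problem -/
def Q (b n : ℕ) : ℕ := (b ^ n + 1) / (b + 1)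

/-- `u = (c / d) w`, where `c`, `d` are integers of absolute value at most `C`, and `w` is a nonzero
rational number with numerator and denominator at most `H` (in absolute value), both composed of the
primes of `S`. -/
def AlmostUnit (S : Finset ℕ) (C H : ℝ) (u : ℚ) : Prop :=
  ∃ (c d : ℤ) (w : ℚ), d ≠ 0 ∧ |(c : ℝ)| ≤ C ∧ |(d : ℝ)| ≤ C ∧ w ≠ 0 ∧
    (∀ l : ℕ, l.Prime → (l ∣ w.num.natAbs ∨ l ∣ w.den) → l ∈ S) ∧
    |(w.num : ℝ)| ≤ H ∧ (w.den : ℝ) ≤ H ∧ u = (c : ℚ) / d * w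

lemma Q_mul {b p : ℕ} (hp : Odd p) :
    ((Q b p : ℕ) : ℤ) * ((b : ℤ) - (-1)) = (b : ℤ) ^ p - (-1) ^ p := by
  have h1 : (b + 1) ∣ b ^ p + 1 := by
    have := hp.nat_add_dvd_pow_add_pow b 1
    rwa [one_pow] at this
  have h2 : Q b p * (b + 1) = b ^ p + 1 := Nat.div_mul_cancel h1
  rw [hp.neg_one_pow, sub_neg_eq_add, sub_neg_eq_add]
  exact_mod_cast h2

lemma adm {b : ℕ} (hb : 2 ≤ b) (h1 : ¬ ∃ m r : ℕ, Odd r ∧ 1 < r ∧ b = m ^ r)
    (h2 : ¬ ∃ k : ℕ, b = 4 * k ^ 4) : Pool.Agent.H556.FX.Adm (b : ℤ) (-1) where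
  one_lt := by omega
  neg_lt := by omega
  lt := by omega
  cop := isCoprime_one_right.neg_right
  pow := by
    rintro r hr ⟨⟨c, hc⟩, d, hd⟩
    have hodd : Odd r := by
      by_contra h
      rw [Nat.not_odd_iff_even] at h
      have := h.pow_nonneg d
      omega
    have hc0 : 0 ≤ c := by
      by_contra h
      push Not at h
      have := hodd.pow_neg h
      omega
    obtain ⟨m, rfl⟩ := Int.eq_ofNat_of_zero_le hc0
    exact h1 ⟨m, r, hodd, hr, by exact_mod_cast hc⟩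
  four := by
    rintro ⟨c, hc⟩
    have hc' : 4 * (b : ℤ) = c ^ 4 := by linarith
    have he : Even c := by
      by_contra h
      rw [Int.not_even_iff_odd] at h
      have h3 : Odd (c ^ 4) := h.pow
      rw [← hc'] at h3
      exact (Int.not_even_iff_odd.2 h3) ⟨2 * b, by ring⟩
    obtain ⟨k, rfl⟩ := he
    apply h2
    refine ⟨k.natAbs, ?_⟩
    have h3 : (b : ℤ) = 4 * (k.natAbs : ℤ) ^ 4 := by
      have h4 : ((k.natAbs : ℤ)) ^ 4 = k ^ 4 := by
        have h5 : ((k.natAbs : ℤ)) ^ 2 = k ^ 2 := Int.natAbs_sq k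
        calc ((k.natAbs : ℤ)) ^ 4 = (((k.natAbs : ℤ)) ^ 2) ^ 2 := by ring
          _ = (k ^ 2) ^ 2 := by rw [h5]
          _ = k ^ 4 := by ring
      rw [h4]
      linarith
    exact_mod_cast h3

theorem result (b : ℕ) (hb : 2 ≤ b) (h1 : ¬ ∃ m r : ℕ, Odd r ∧ 1 < r ∧ b = m ^ r)
    (h2 : ¬ ∃ k : ℕ, b = 4 * k ^ 4) (S : Finset ℕ) (K ε : ℝ) (hε : 0 < ε) :
    (∀ α : ℝ, IsAlgebraic ℚ α → ∃ η : ℝ, 0 < η ∧ ∃ p₀ : ℕ, ∀ p ≥ p₀, p.Prime → ∀ u : ℚ,
      AlmostUnit S ((Q b p : ℝ) ^ η) ((Q b p : ℝ) ^ K) u →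
      ∀ a : ℕ, a ∣ Q b p → ∀ t : ℝ, ε ≤ t → t ≤ 1 - ε → (a : ℝ) = (Q b p : ℝ) ^ t →
      (Q b p : ℝ) ^ (t ^ 2 - ε) < |(a : ℝ) - α * (u : ℝ)|) ∧
    ∃ η : ℝ, 0 < η ∧ ∃ p₀ : ℕ, ∀ p ≥ p₀, p.Prime →
      ∀ a : ℕ, a ∣ Q b p → ∀ t : ℝ, ε ≤ t → t ≤ 1 - ε → (a : ℝ) = (Q b p : ℝ) ^ t →
      ∀ u v s : ℤ, u ≠ 0 → v ≠ 0 → s ≠ 0 → (∀ l : ℕ, l.Prime → (l : ℤ) ∣ u * v * s → l ∈ S) →
      IsCoprime u v → |(u : ℝ)| ≤ (Q b p : ℝ) ^ K → |(v : ℝ)| ≤ (Q b p : ℝ) ^ K →
      ∀ c d k : ℤ, c ≠ 0 → d ≠ 0 → |(c : ℝ)| ≤ (Q b p : ℝ) ^ η → |(d : ℝ)| ≤ (Q b p : ℝ) ^ η →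
      c * u * a + d * v = k * s →
      max (|(u : ℝ)| * a) |(v : ℝ)| * (Q b p : ℝ) ^ (-(t * (1 - t)) - ε) < |(k : ℝ)| := by
  have hA := adm hb h1 h2
  constructor
  · intro α hα
    obtain ⟨η, hη, p₀, h⟩ := Pool.Agent.H556.FX.near' hA S α hα K ε hε
    refine ⟨η, hη, p₀ + 3, fun p hp hpp u hu a ha t ht1 ht2 hat => ?_⟩
    obtain ⟨c, d, w, hd0, hc, hd, hw0, hwS, hwn, hwd, rfl⟩ := hu
    have key := h p (by omega) hpp (Q b p) (Q_mul (hpp.odd_of_ne_two (by omega))) c d w hd0 hc hd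
      hw0 hwS hwn hwd a ha t ht1 ht2 hat
    push_cast
    exact key
  · obtain ⟨η, hη, p₀, h⟩ := Pool.Agent.H556.FX.sfree' hA S K ε hε
    refine ⟨η, hη, p₀ + 3, fun p hp hpp a ha t ht1 ht2 hat u v s hu0 hv0 hs0 hS huv hu hv c d k hc0
      hd0 hc hd hrel => ?_⟩
    exact h p (by omega) hpp (Q b p) (Q_mul (hpp.odd_of_ne_two (by omega))) a ha t ht1 ht2 hat
      c d u v k s hc0 hd0 hc hd hu0 hv0 hs0 hS huv hu hv hrel

end Pool.Agent.Results.MP_ce8d0c_nt.WagstaffDivisors
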